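import Pool.Agent.NPC.Classes

set_option autoImplicit false

/-!
# The mixed metric dimension: definitions
-/

namespace Pool.Agent.R550.MD

open Pool.Agent.NPC

/-- The graph given by a list `A` of adjacency lists: its vertices are `0, …, n - 1`, where `n` is
the length of `A`, and two different vertices `u`, `v` are adjacent if `v` occurs in the `u`-th list
or `u` occurs in the `v`-th list. -/
def graph (A : List (List ℕ)) : SimpleGraph (Fin A.length) :=
  SimpleGraph.fromRel fun u v => (v : ℕ) ∈ A[u]

/-- `S` is a mixed resolving set of `G`: any two distinct elements of `V(G) ∪ E(G)` have different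
distances to some vertex `w` of `S`, where the distance of an edge `u v` to `w` is the minimum of the
distances of `u` and `v` to `w`. The three parts are: two vertices; a vertex and an edge; two
edges. -/
def MixedResolving {V : Type} (G : SimpleGraph V) (S : Finset V) : Prop :=
  (∀ x y : V, x ≠ y → ∃ w ∈ S, G.dist x w ≠ G.dist y w) ∧
  (∀ x u v : V, G.Adj u v → ∃ w ∈ S, G.dist x w ≠ min (G.dist u w) (G.dist v w)) ∧
  (∀ u v u' v' : V, G.Adj u v → G.Adj u' v' → s(u, v) ≠ s(u', v') →
    ∃ w ∈ S, min (G.dist u w) (G.dist v w) ≠ min (G.dist u' w) (G.dist v' w))

/-- The mixed metric dimension: the least size of a mixed resolving set. -/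
noncomputable def mdim {V : Type} (G : SimpleGraph V) : ℕ :=
  sInf {k : ℕ | ∃ S : Finset V, MixedResolving G S ∧ S.card = k}

/-- The set of vertices given by a list. -/
def vset (A : List (List ℕ)) (S : List ℕ) : Finset (Fin A.length) :=
  Finset.univ.filter fun v => (v : ℕ) ∈ S

/-- There is a polynomial-time `c`-approximation algorithm for the mixed metric dimension: a
polynomial-time computable function `F` on bit strings which maps the code of every connected graph
to the code of a mixed resolving set of size at most `c` times the mixed metric dimension. -/
def Approx (c : ℝ) : Prop :=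
  ∃ F : List Bool → List Bool, PolyTime F ∧ ∀ A : List (List ℕ), (graph A).Connected →
    ∃ S : List ℕ, F (bits A) = bits S ∧ MixedResolving (graph A) (vset A S) ∧
      ((vset A S).card : ℝ) ≤ c * mdim (graph A)

end Pool.Agent.R550.MD
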