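import Pool.Agent.R550.MD.Gadget
import Pool.Agent.R550.MD.Defs

set_option autoImplicit false

/-!
# Mixed resolving sets of the graph of the reduction
-/

namespace Pool.Agent.R550.MD

open Vx

variable {V : Type} {G : SimpleGraph V} {lab : V → Vx} {c : ℕ → ℕ → Bool} {N M A B : ℕ}

/-- the chosen labels -/
def Sel (X : Finset ℕ) : Vx → Prop
  | .l => True
  | .l' => True
  | .a _ => True
  | .b _ => True
  | .s i => i ∈ X
  | _ => False

theorem IsGad.sep (hG : IsGad G lab c N M A B) (X : Finset ℕ) (hXN : ∀ i ∈ X, i < N)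
    (hS1 : ∀ j < M, ∃ i ∈ X, c j i = true) (hS2 : ∀ j < M, ∃ i ∈ X, c j i = false)
    (S : Finset V) (hS : ∀ v, Sel X (lab v) → v ∈ S) {x y x' y' : V}
    (h : x = y ∨ R c (lab x) (lab y) = true) (h' : x' = y' ∨ R c (lab x') (lab y') = true)
    (hd : ∀ w ∈ S, min (G.dist x w) (G.dist y w) = min (G.dist x' w) (G.dist y' w)) :
    x = x' ∧ y = y' := by
  have hd' : ∀ w ∈ S, min (G.dist w x) (G.dist w y) = min (G.dist w x') (G.dist w y') := by
    intro w hw
    have := hd w hw
    simpa only [SimpleGraph.dist_comm (v := w)] using this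
  have fl : min (Fl (lab x)) (Fl (lab y)) = min (Fl (lab x')) (Fl (lab y')) := by
    obtain ⟨w, hw⟩ := hG.surj .l trivial
    have := hd' w (hS w (by rw [hw]; trivial))
    simpa only [(hG.dist_l hw _).2] using this
  have fl' : min (Fl' (lab x)) (Fl' (lab y)) = min (Fl' (lab x')) (Fl' (lab y')) := by
    obtain ⟨w, hw⟩ := hG.surj .l' trivial
    have := hd' w (hS w (by rw [hw]; trivial))
    simpa only [(hG.dist_l' hw _).2] using this
  have fa : ∀ q < A, min (Fa q (lab x)) (Fa q (lab y)) = min (Fa q (lab x')) (Fa q (lab y')) := by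
    intro q hq
    obtain ⟨w, hw⟩ := hG.surj (.a q) hq
    have := hd' w (hS w (by rw [hw]; trivial))
    simpa only [(hG.dist_a hq hw _).2] using this
  have fb : ∀ q < B, min (Fb q (lab x)) (Fb q (lab y)) = min (Fb q (lab x')) (Fb q (lab y')) := by
    intro q hq
    obtain ⟨w, hw⟩ := hG.surj (.b q) hq
    have := hd' w (hS w (by rw [hw]; trivial))
    simpa only [(hG.dist_b hq hw _).2] using this
  have fs : ∀ i ∈ X, min (Fs c i (lab x)) (Fs c i (lab y)) =
      min (Fs c i (lab x')) (Fs c i (lab y')) := by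
    intro i hi
    obtain ⟨w, hw⟩ := hG.surj (.s i) (hXN i hi)
    have := hd' w (hS w (by rw [hw]; exact hi))
    simpa only [(hG.dist_s (hXN i hi) hw _).2] using this
  rcases h with rfl | h
  · rcases h' with rfl | h'
    · simp only [min_self] at fl fa fb fs
      have := hG.inj (sepVV (N := N) (M := M) hG.hN hG.hM2 X hS1 (hG.ok _) (hG.ok _) fl fa fb fs)
      exact ⟨this, this⟩
    · simp only [min_self] at fl fl' fa fb fs
      exact (sepVE hG.hM2 X hS1 hS2 h' (hG.ok _) (hG.ok _) fl fl' fa fb fs).elim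
  · rcases h' with rfl | h'
    · simp only [min_self] at fl fl' fa fb fs
      exact (sepVE hG.hM2 X hS1 hS2 h (hG.ok _) (hG.ok _) fl.symm fl'.symm
        (fun q hq => (fa q hq).symm) (fun q hq => (fb q hq).symm)
        (fun q hq => (fs q hq).symm)).elim
    · obtain ⟨h1, h2⟩ := sepEE hG.hN hG.hM2 X hS1 h h' (hG.ok _) (hG.ok _) (hG.ok _) (hG.ok _)
        fl fl' fa fb fs
      exact ⟨hG.inj h1, hG.inj h2⟩

theorem IsGad.resolving (hG : IsGad G lab c N M A B) (X : Finset ℕ) (hXN : ∀ i ∈ X, i < N)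
    (hS1 : ∀ j < M, ∃ i ∈ X, c j i = true) (hS2 : ∀ j < M, ∃ i ∈ X, c j i = false)
    (S : Finset V) (hS : ∀ v, Sel X (lab v) → v ∈ S) : MixedResolving G S := by
  refine ⟨?_, ?_, ?_⟩
  · intro x y hxy
    by_contra hcon
    push Not at hcon
    exact hxy (hG.sep X hXN hS1 hS2 S hS (x := x) (y := x) (x' := y) (y' := y) (Or.inl rfl)
      (Or.inl rfl) (fun w hw => by rw [hcon w hw])).1
  · intro x u v huv
    by_contra hcon
    push Not at hcon
    rcases (hG.adj u v).1 huv with h | h
    · obtain ⟨h1, h2⟩ := hG.sep X hXN hS1 hS2 S hS (x := x) (y := x) (x' := u) (y' := v)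
        (Or.inl rfl) (Or.inr h) (fun w hw => by rw [min_self, hcon w hw])
      exact huv.ne (h1.symm.trans h2)
    · obtain ⟨h1, h2⟩ := hG.sep X hXN hS1 hS2 S hS (x := x) (y := x) (x' := v) (y' := u)
        (Or.inl rfl) (Or.inr h) (fun w hw => by rw [min_self, hcon w hw, min_comm])
      exact huv.ne (h2.symm.trans h1)
  · intro u v u' v' huv huv' hne
    by_contra hcon
    push Not at hcon
    rcases (hG.adj u v).1 huv with h | h <;> rcases (hG.adj u' v').1 huv' with h' | h'
    · obtain ⟨h1, h2⟩ := hG.sep X hXN hS1 hS2 S hS (Or.inr h) (Or.inr h') hcon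
      exact hne (by rw [h1, h2])
    · obtain ⟨h1, h2⟩ := hG.sep X hXN hS1 hS2 S hS (Or.inr h) (Or.inr h')
        (fun w hw => by rw [hcon w hw, min_comm])
      exact hne (by rw [h1, h2, Sym2.eq_swap])
    · obtain ⟨h1, h2⟩ := hG.sep X hXN hS1 hS2 S hS (Or.inr h) (Or.inr h')
        (fun w hw => by rw [min_comm, hcon w hw])
      exact hne (by rw [h1, h2, Sym2.eq_swap])
    · obtain ⟨h1, h2⟩ := hG.sep X hXN hS1 hS2 S hS (Or.inr h) (Or.inr h')
        (fun w hw => by rw [min_comm, hcon w hw, min_comm])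
      exact hne (by rw [h1, h2])

theorem IsGad.mdim_le [Fintype V] (hG : IsGad G lab c N M A B) (X : Finset ℕ)
    (hXN : ∀ i ∈ X, i < N)
    (hS1 : ∀ j < M, ∃ i ∈ X, c j i = true) (hS2 : ∀ j < M, ∃ i ∈ X, c j i = false) :
    mdim G ≤ 2 + A + B + X.card := by
  classical
  have h1 := hG.resolving X hXN hS1 hS2 (Finset.univ.filter fun v => Sel X (lab v))
    (fun v hv => by simpa using hv)
  have h0 : mdim G ≤ (Finset.univ.filter fun v => Sel X (lab v)).card :=
    Nat.sInf_le ⟨_, h1, rfl⟩
  refine h0.trans ?_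
  rw [← Finset.card_image_of_injective _ hG.inj]
  have h2 : (Finset.univ.filter fun v => Sel X (lab v)).image lab ⊆
      ({.l, .l'} : Finset Vx) ∪ (Finset.range A).image .a ∪ (Finset.range B).image .b ∪
        X.image .s := by
    intro L hL
    obtain ⟨v, hv, rfl⟩ := Finset.mem_image.1 hL
    have hv1 := (Finset.mem_filter.1 hv).2
    have hv2 := hG.ok v
    revert hv1 hv2
    cases lab v <;> simp [Sel, Ok]
    exact fun h _ => h
  refine (Finset.card_le_card h2).trans ?_
  refine (Finset.card_union_le _ _).trans ?_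
  refine Nat.add_le_add ?_ Finset.card_image_le
  refine (Finset.card_union_le _ _).trans ?_
  refine Nat.add_le_add ?_ (Finset.card_image_le.trans (Finset.card_range _).le)
  refine (Finset.card_union_le _ _).trans ?_
  exact Nat.add_le_add (Finset.card_le_two) (Finset.card_image_le.trans (Finset.card_range _).le)

/-- every mixed resolving set gives a hitting set -/
theorem IsGad.hitting [DecidableEq V] (hG : IsGad G lab c N M A B) (S : Finset V)
    (hS : MixedResolving G S) :
    ∃ X : Finset ℕ, (∀ j < M, ∃ i, c j i = true ∧ i ∈ X) ∧ X.card ≤ S.card := by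
  classical
  have hch : ∀ j, ∃ i, j < M → c j i = true := by
    intro j
    by_cases hj : j < M
    · obtain ⟨i, _, hi⟩ := hG.mem j hj
      exact ⟨i, fun _ => hi⟩
    · exact ⟨0, fun h => absurd h hj⟩
  choose g hg using hch
  let φ : Vx → ℕ := fun L => match L with
    | .uv _ j => g j
    | .s i => i
    | _ => 0
  refine ⟨S.image fun v => φ (lab v), fun j hj => ?_, Finset.card_image_le⟩
  obtain ⟨u, hu⟩ := hG.surj (.uv true j) hj
  obtain ⟨v, hv⟩ := hG.surj (.uv false j) hj
  have huv : G.Adj u v := (hG.adj u v).2 (Or.inl (by rw [hu, hv]; simp [R]))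
  obtain ⟨w, hwS, hw⟩ := hS.2.1 v u v huv
  have hlt : G.dist w u < G.dist w v := by
    rw [SimpleGraph.dist_comm, SimpleGraph.dist_comm (u := w) (v := v)]
    by_contra hcon
    push Not at hcon
    rw [min_eq_right hcon] at hw
    exact hw rfl
  -- paths of length two
  have two : ∀ x y z : V, G.Adj x y → G.Adj y z → G.dist x z ≤ 2 := by
    intro x y z hxy hyz
    exact SimpleGraph.dist_le (SimpleGraph.Walk.cons hxy (SimpleGraph.Walk.cons hyz
      SimpleGraph.Walk.nil))
  obtain ⟨vl, hvl⟩ := hG.surj .l trivial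
  have hreach : ∀ x y, G.Reachable x y := fun x y =>
    (hG.dist_l hvl x).1.symm.trans (hG.dist_l hvl y).1
  -- distances at least two
  have two' : ∀ x z : V, x ≠ z → ¬ G.Adj x z → 2 ≤ G.dist x z := by
    intro x z hne hadj
    have h1 : G.dist x z ≠ 0 := fun h => hne ((hreach x z).dist_eq_zero_iff.1 h)
    have h2 : G.dist x z ≠ 1 := fun h => hadj (SimpleGraph.dist_eq_one_iff_adj.1 h)
    omega
  have hok := hG.ok w
  cases hL : lab w with
  | l =>
    rw [(hG.dist_l hL _).2, (hG.dist_l hL _).2, hu, hv] at hlt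
    simp [Fl] at hlt
  | h =>
    have h1 : G.Adj w v := (hG.adj _ _).2 (Or.inl (by rw [hL, hv]; simp [R]))
    have h2 : G.dist w v = 1 := SimpleGraph.dist_eq_one_iff_adj.2 h1
    have h3 : G.dist w u = 0 := by omega
    have h4 := (hreach w u).dist_eq_zero_iff.1 h3
    rw [h4, hu] at hL
    simp at hL
  | uv t k =>
    rw [hL] at hok
    by_cases hkj : k = j
    · subst hkj
      cases t with
      | true =>
        exact ⟨g k, hg k hj, Finset.mem_image.2 ⟨w, hwS, by simp only [hL, φ]⟩⟩
      | false =>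
        have : w = v := hG.inj (hL.trans hv.symm)
        subst this
        simp at hlt
    · obtain ⟨x, hx⟩ := hG.surj .h trivial
      have h1 : G.Adj w x := (hG.adj _ _).2 (Or.inr (by rw [hL, hx]; simp [R]))
      have h2 : G.Adj x v := (hG.adj _ _).2 (Or.inl (by rw [hv, hx]; simp [R]))
      have h3 := two w x v h1 h2
      have h4 : 2 ≤ G.dist w u := by
        refine two' w u ?_ ?_
        · rintro rfl
          rw [hL] at hu
          simp only [Vx.uv.injEq] at hu
          exact hkj hu.2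
        · intro h
          rw [hG.adj, hL, hu] at h
          cases t <;> simp [R] at h
          exact hkj h.symm
      omega
  | a q =>
    rw [hL] at hok
    rw [(hG.dist_a hok hL _).2, (hG.dist_a hok hL _).2, hu, hv] at hlt
    simp [Fa] at hlt
  | s i =>
    rw [hL] at hok
    rw [(hG.dist_s hok hL _).2, (hG.dist_s hok hL _).2, hu, hv] at hlt
    refine ⟨i, ?_, Finset.mem_image.2 ⟨w, hwS, by simp only [hL, φ]⟩⟩
    simp only [Fs] at hlt
    cases h : c j i
    · simp [h] at hlt
    · rfl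
  | b p =>
    rw [hL] at hok
    rw [(hG.dist_b hok hL _).2, (hG.dist_b hok hL _).2, hu, hv] at hlt
    simp [Fb] at hlt
  | h' =>
    obtain ⟨i, hi, hc⟩ := hG.nmem j hj
    obtain ⟨x, hx⟩ := hG.surj (.s i) hi
    have h1 : G.Adj w x := (hG.adj _ _).2 (Or.inr (by rw [hL, hx]; simp [R]))
    have h2 : G.Adj x v := (hG.adj _ _).2 (Or.inr (by rw [hv, hx]; simp [R, hc]))
    have h3 := two w x v h1 h2
    have h4 : 2 ≤ G.dist w u := by
      refine two' w u ?_ ?_
      · rintro rfl
        rw [hL] at hu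
        simp at hu
      · intro h
        rw [hG.adj, hL, hu] at h
        simp [R] at h
    omega
  | l' =>
    rw [(hG.dist_l' hL _).2, (hG.dist_l' hL _).2, hu, hv] at hlt
    simp [Fl'] at hlt

theorem IsGad.le_mdim [Fintype V] [DecidableEq V] (hG : IsGad G lab c N M A B)
    (hne : ∃ S : Finset V, MixedResolving G S) {k : ℕ}
    (hk : ∀ X : Finset ℕ, (∀ j < M, ∃ i, c j i = true ∧ i ∈ X) → k ≤ X.card) : k ≤ mdim G := by
  obtain ⟨S₀, hS₀⟩ := hne
  have h1 : mdim G ∈ {k : ℕ | ∃ S : Finset V, MixedResolving G S ∧ S.card = k} :=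
    Nat.sInf_mem ⟨_, S₀, hS₀, rfl⟩
  obtain ⟨S, hS, hSc⟩ := h1
  obtain ⟨X, hX, hXc⟩ := hG.hitting S hS
  rw [← hSc]
  exact (hk X hX).trans hXc

end Pool.Agent.R550.MD
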