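import Pool.Agent.R550.MD.Bound
import Pool.Agent.R550.HSGap

set_option autoImplicit false

/-!
# The graph of the reduction as a list of adjacency lists
-/

namespace Pool.Agent.R550.MD

open Pool.Agent.NPC Pool.Agent.R550.HS

/-- adjacency lists of the graph with the vertices in the list `vs` and the adjacency test `T` -/
def mkL (vs : List (ℕ × ℕ)) (T : ℕ × ℕ → ℕ × ℕ → Bool) : List (List ℕ) :=
  vs.map fun x => (vs.zipIdx.filter fun p => T x p.1).map fun p => p.2

theorem mkL_length (vs : List (ℕ × ℕ)) (T : ℕ × ℕ → ℕ × ℕ → Bool) :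
    (mkL vs T).length = vs.length := by simp [mkL]

theorem mkL_adj (vs : List (ℕ × ℕ)) (T : ℕ × ℕ → ℕ × ℕ → Bool) (u v : Fin (mkL vs T).length) :
    (graph (mkL vs T)).Adj u v ↔ u ≠ v ∧
      (T (vs[u]'(by simpa [mkL] using u.2)) (vs[v]'(by simpa [mkL] using v.2)) = true ∨
       T (vs[v]'(by simpa [mkL] using v.2)) (vs[u]'(by simpa [mkL] using u.2)) = true) := by
  have key : ∀ u v : Fin (mkL vs T).length, (v : ℕ) ∈ (mkL vs T)[u] ↔
      T (vs[u]'(by simpa [mkL] using u.2)) (vs[v]'(by simpa [mkL] using v.2)) = true := by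
    intro u v
    have hv : (v : ℕ) < vs.length := by simpa [mkL] using v.2
    rw [Fin.getElem_fin]
    simp only [mkL, List.getElem_map, List.mem_map, List.mem_filter]
    constructor
    · rintro ⟨⟨y, i⟩, ⟨h1, h2⟩, h3⟩
      rw [List.mem_zipIdx_iff_getElem?] at h1
      simp only at h1 h2 h3
      subst h3
      rw [List.getElem?_eq_getElem hv] at h1
      simp only [Option.some.injEq] at h1
      subst h1
      exact h2
    · intro h
      refine ⟨(vs[(v : ℕ)], (v : ℕ)), ⟨?_, h⟩, rfl⟩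
      rw [List.mem_zipIdx_iff_getElem?]
      exact List.getElem?_eq_getElem hv
  unfold graph
  rw [SimpleGraph.fromRel_adj, key, key]

/-- codes of the labels -/
def code : Vx → ℕ × ℕ
  | .l => (0, 0)
  | .h => (1, 0)
  | .uv true j => (2, j)
  | .uv false j => (3, j)
  | .a q => (4, q)
  | .s i => (5, i)
  | .b p => (6, p)
  | .h' => (7, 0)
  | .l' => (8, 0)

theorem code_inj : Function.Injective code := by
  intro X Y h
  rcases X with _ | _ | ⟨_ | _, j⟩ | q | i | p | _ | _ <;>
    rcases Y with _ | _ | ⟨_ | _, k⟩ | r | m | s | _ | _ <;>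
    simp [code] at h ⊢ <;> exact h

/-- the indices of the vertices of each type -/
def blk (N M A B : ℕ) (t : ℕ) : List ℕ :=
  if t = 2 ∨ t = 3 then List.range M else
    if t = 4 then List.range A else if t = 5 then List.range N else
      if t = 6 then List.range B else [0]

/-- the list of vertices -/
def vsL (N M A B : ℕ) : List (ℕ × ℕ) :=
  [0, 1, 2, 3, 4, 5, 6, 7, 8].flatMap fun t => (blk N M A B t).map fun i => (t, i)

theorem mem_vsL {N M A B : ℕ} {x : ℕ × ℕ} :
    x ∈ vsL N M A B ↔ ∃ X, Ok N M A B X ∧ code X = x := by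
  obtain ⟨t, i⟩ := x
  simp only [vsL, List.mem_flatMap, List.mem_map, Prod.mk.injEq]
  constructor
  · rintro ⟨t', ht, i', hi, rfl, rfl⟩
    simp only [List.mem_cons, List.not_mem_nil, or_false] at ht
    rcases ht with rfl | rfl | rfl | rfl | rfl | rfl | rfl | rfl | rfl <;>
      simp [blk] at hi
    · exact ⟨.l, trivial, by rw [hi]; rfl⟩
    · exact ⟨.h, trivial, by rw [hi]; rfl⟩
    · exact ⟨.uv true i', hi, rfl⟩
    · exact ⟨.uv false i', hi, rfl⟩
    · exact ⟨.a i', hi, rfl⟩
    · exact ⟨.s i', hi, rfl⟩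
    · exact ⟨.b i', hi, rfl⟩
    · exact ⟨.h', trivial, by rw [hi]; rfl⟩
    · exact ⟨.l', trivial, by rw [hi]; rfl⟩
  · rintro ⟨X, hX, hc⟩
    rcases X with _ | _ | ⟨_ | _, j⟩ | q | i | p | _ | _ <;>
      simp only [code, Prod.mk.injEq] at hc <;> obtain ⟨rfl, rfl⟩ := hc
    · exact ⟨0, by simp, 0, by simp [blk], rfl, rfl⟩
    · exact ⟨1, by simp, 0, by simp [blk], rfl, rfl⟩
    · exact ⟨3, by simp, j, by simpa [blk, Ok] using hX, rfl, rfl⟩
    · exact ⟨2, by simp, j, by simpa [blk, Ok] using hX, rfl, rfl⟩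
    · exact ⟨4, by simp, q, by simpa [blk, Ok] using hX, rfl, rfl⟩
    · exact ⟨5, by simp, i, by simpa [blk, Ok] using hX, rfl, rfl⟩
    · exact ⟨6, by simp, p, by simpa [blk, Ok] using hX, rfl, rfl⟩
    · exact ⟨7, by simp, 0, by simp [blk], rfl, rfl⟩
    · exact ⟨8, by simp, 0, by simp [blk], rfl, rfl⟩

theorem vsL_nodup (N M A B : ℕ) : (vsL N M A B).Nodup := by
  unfold vsL
  rw [List.nodup_flatMap]
  constructor
  · intro t _
    refine List.Nodup.map (fun i i' h => (Prod.mk.inj h).2) ?_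
    unfold blk
    split_ifs <;> first | exact List.nodup_range | simp
  · have key : ∀ t t' : ℕ, t ≠ t' → List.Disjoint ((blk N M A B t).map fun i => (t, i))
        ((blk N M A B t').map fun i => (t', i)) := by
      intro t t' hne x hx hx'
      obtain ⟨i, _, rfl⟩ := List.mem_map.1 hx
      obtain ⟨i', _, h⟩ := List.mem_map.1 hx'
      exact hne (Prod.mk.inj h).1.symm
    have h2 : ([0, 1, 2, 3, 4, 5, 6, 7, 8] : List ℕ).Nodup := by decide
    exact h2.imp fun h => key _ _ h

/-- the adjacency test -/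
def T (H : List (List ℕ)) (x y : ℕ × ℕ) : Bool :=
  (decide (x.1 = 0) && decide (y.1 = 1)) ||
  ((decide (x.1 = 1) && (decide (y.1 = 2) || (decide (y.1 = 3) || decide (y.1 = 4)))) ||
  ((decide (x.1 = 2) && (decide (y.1 = 3) && decide (x.2 = y.2))) ||
  ((decide (x.1 = 2) && (decide (y.1 = 5) && decide (y.2 ∈ H.getD x.2 []))) ||
  ((decide (x.1 = 3) && (decide (y.1 = 5) && !decide (y.2 ∈ H.getD x.2 []))) ||
  (((decide (x.1 = 2) || decide (x.1 = 3)) && (decide (y.1 = 6) && x.2.bits.getD y.2 false)) ||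
  ((decide (x.1 = 4) && (decide (y.1 = 5) && y.2.bits.getD x.2 false)) ||
  ((decide (x.1 = 4) && decide (y.1 = 6)) ||
  (((decide (x.1 = 5) || decide (x.1 = 6)) && decide (y.1 = 7)) ||
  (decide (x.1 = 7) && decide (y.1 = 8))))))))))

/-- membership -/
def cH (H : List (List ℕ)) (j i : ℕ) : Bool := decide (i ∈ H.getD j [])

theorem bits_getD (n i : ℕ) : n.bits.getD i false = n.testBit i := by
  rw [Nat.testBit_eq_inth, List.getI_eq_getElem?_getD, List.getD_eq_getElem?_getD]
  rfl

theorem T_code (H : List (List ℕ)) (X Y : Vx) : T H (code X) (code Y) = R (cH H) X Y := by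
  rcases X with _ | _ | ⟨_ | _, j⟩ | q | i | p | _ | _ <;>
    rcases Y with _ | _ | ⟨_ | _, k⟩ | r | m | s | _ | _ <;>
    simp only [code, T, R, cH, bits_getD] <;> simp

/-- the graph of the reduction -/
def GA (N A B : ℕ) (H : List (List ℕ)) : List (List ℕ) := mkL (vsL N H.length A B) (T H)

theorem isGad (N A B : ℕ) (H : List (List ℕ)) (hA : 0 < A) (hB : 0 < B) (hM : 0 < H.length)
    (hN : N ≤ 2 ^ A) (hM2 : H.length ≤ 2 ^ B)
    (hlt : ∀ C ∈ H, ∀ a ∈ C, a < N) (hne : ∀ C ∈ H, C ≠ []) (hw : ∀ C ∈ H, C.length < N) :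
    ∃ lab : Fin (GA N A B H).length → Vx,
      IsGad (graph (GA N A B H)) lab (cH H) N H.length A B := by
  have hlen : (GA N A B H).length = (vsL N H.length A B).length := mkL_length _ _
  have hex : ∀ v : Fin (GA N A B H).length, ∃ X, Ok N H.length A B X ∧
      code X = (vsL N H.length A B)[(v : ℕ)]'(by rw [← hlen]; exact v.2) := fun v =>
    mem_vsL.1 (List.getElem_mem _)
  choose lab hok hcode using hex
  have hinj : Function.Injective lab := by
    intro u v h
    have h1 := hcode u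
    rw [h, hcode v] at h1
    have h2 := (List.Nodup.getElem_inj_iff (vsL_nodup N H.length A B)).1 h1
    exact Fin.ext h2.symm
  refine ⟨lab, hinj, hok, ?_, ?_, hA, hB, hM, hN, hM2, ?_, ?_⟩
  · intro X hX
    obtain ⟨i, hi, hi'⟩ := List.getElem_of_mem (mem_vsL.2 ⟨X, hX, rfl⟩)
    refine ⟨⟨i, by rw [hlen]; exact hi⟩, code_inj ?_⟩
    rw [hcode]
    exact hi'
  · intro x y
    have h1 := mkL_adj (vsL N H.length A B) (T H) x y
    have h2 : (graph (GA N A B H)).Adj x y ↔ x ≠ y ∧
        (T H (code (lab x)) (code (lab y)) = true ∨ T H (code (lab y)) (code (lab x)) = true) := by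
      rw [hcode x, hcode y]
      exact h1
    rw [h2, T_code, T_code]
    refine ⟨fun h => h.2, fun h => ⟨?_, h⟩⟩
    rintro rfl
    revert h
    rcases lab x with _ | _ | ⟨_ | _, j⟩ | q | i | p | _ | _ <;> simp [R]
  · intro j hj
    have hmem : H.getD j [] ∈ H := by
      rw [List.getD_eq_getElem?_getD, List.getElem?_eq_getElem hj]
      exact List.getElem_mem hj
    obtain ⟨a, ha⟩ := List.exists_mem_of_ne_nil _ (hne _ hmem)
    exact ⟨a, hlt _ hmem a ha, by simpa [cH] using ha⟩
  · intro j hj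
    have hmem : H.getD j [] ∈ H := by
      rw [List.getD_eq_getElem?_getD, List.getElem?_eq_getElem hj]
      exact List.getElem_mem hj
    by_contra hcon
    push Not at hcon
    have h1 : Finset.range N ⊆ (H.getD j []).toFinset := by
      intro i hi
      rw [Finset.mem_range] at hi
      rw [List.mem_toFinset]
      have := hcon i hi
      by_contra hni
      exact this (by simpa [cH] using hni)
    have h2 := (Finset.card_le_card h1).trans (List.toFinset_card_le _)
    rw [Finset.card_range] at h2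
    have := hw _ hmem
    omega

/-! ### Polynomial time -/

section

variable {α : Type} [TEnc α]

theorem poly_T {H : α → List (List ℕ)} {x y : α → ℕ × ℕ} (hH : NPC.Poly H) (hx : NPC.Poly x)
    (hy : NPC.Poly y) : NPC.Poly (fun a => T (H a) (x a) (y a)) := by
  unfold T
  have h1 : NPC.Poly (fun a => (x a).2.bits) := Poly.natBits (Poly.snd hx)
  have h2 : NPC.Poly (fun a => (y a).2.bits) := Poly.natBits (Poly.snd hy)
  fun_prop

theorem poly_vsL {N M A B : α → ℕ} (hN : UPoly N) (hM : UPoly M) (hA : UPoly A) (hB : UPoly B) :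
    NPC.Poly (fun a => vsL (N a) (M a) (A a) (B a)) := by
  unfold vsL blk
  have h1 : NPC.Poly (fun p : α × ℕ => List.range (N p.1)) := hN.range.comp (Poly.fst Poly.id)
  have h2 : NPC.Poly (fun p : α × ℕ => List.range (M p.1)) := hM.range.comp (Poly.fst Poly.id)
  have h3 : NPC.Poly (fun p : α × ℕ => List.range (A p.1)) := hA.range.comp (Poly.fst Poly.id)
  have h4 : NPC.Poly (fun p : α × ℕ => List.range (B p.1)) := hB.range.comp (Poly.fst Poly.id)
  refine Poly.flatMap (F := fun a t => (if t = 2 ∨ t = 3 then List.range (M a) else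
    if t = 4 then List.range (A a) else if t = 5 then List.range (N a) else
      if t = 6 then List.range (B a) else [0]).map fun i => (t, i))
    (NPC.Poly.const [0, 1, 2, 3, 4, 5, 6, 7, 8]) ?_
  fun_prop

theorem poly_mkL {vs : α → List (ℕ × ℕ)} {t : α → ℕ × ℕ → ℕ × ℕ → Bool} (hvs : NPC.Poly vs)
    (ht : NPC.Poly (fun p : (α × (ℕ × ℕ)) × (ℕ × ℕ) => t p.1.1 p.1.2 p.2)) :
    NPC.Poly (fun a => mkL (vs a) (t a)) := by
  unfold mkL
  refine NPC.Poly.map (F := fun a x => ((vs a).zipIdx.filter fun p => t a x p.1).map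
    fun p => p.2) hvs ?_
  refine NPC.Poly.map (F := fun (_ : α × (ℕ × ℕ)) (p : (ℕ × ℕ) × ℕ) => p.2) ?_
    (by fun_prop)
  refine Poly.filter (p := fun (z : α × (ℕ × ℕ)) (p : (ℕ × ℕ) × ℕ) => t z.1 z.2 p.1)
    (Poly.zipIdx (hvs.comp (Poly.fst Poly.id))) ?_
  exact ht.comp (Poly.pair (Poly.pair (Poly.fst (Poly.fst Poly.id))
    (Poly.snd (Poly.fst Poly.id))) (Poly.fst (Poly.snd Poly.id)))

theorem poly_GA {N A B : α → ℕ} {H : α → List (List ℕ)} (hN : UPoly N) (hA : UPoly A)
    (hB : UPoly B) (hH : NPC.Poly H) : NPC.Poly (fun a => GA (N a) (A a) (B a) (H a)) := by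
  unfold GA
  refine poly_mkL (t := fun a => T (H a)) (poly_vsL hN (UPoly.length hH) hA hB) ?_
  exact poly_T (hH.comp (Poly.fst (Poly.fst Poly.id))) (Poly.snd (Poly.fst Poly.id))
    (Poly.snd Poly.id)

end

end Pool.Agent.R550.MD
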