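import Mathlib

set_option autoImplicit false

/-!
# The graph of the reduction to the mixed metric dimension
-/

namespace Pool.Agent.R550.MD

/-- labels of the vertices -/
inductive Vx
  | l | h | uv (t : Bool) (j : ℕ) | a (q : ℕ) | s (i : ℕ) | b (p : ℕ) | h' | l'
  deriving DecidableEq

open Vx

/-- directed adjacency; `c j i` means that `i` belongs to the `j`-th set -/
def R (c : ℕ → ℕ → Bool) : Vx → Vx → Bool
  | .l, .h => true
  | .h, .uv _ _ => true
  | .h, .a _ => true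
  | .uv true j, .uv false j' => decide (j = j')
  | .uv t j, .s i => c j i == t
  | .uv _ j, .b p => j.testBit p
  | .a q, .s i => i.testBit q
  | .a _, .b _ => true
  | .s _, .h' => true
  | .b _, .h' => true
  | .h', .l' => true
  | _, _ => false

/-- the labels which are used -/
def Ok (N M A B : ℕ) : Vx → Prop
  | .uv _ j => j < M
  | .a q => q < A
  | .s i => i < N
  | .b p => p < B
  | _ => True

/-- distances from `l` -/
def Fl : Vx → ℕ
  | .l => 0 | .h => 1 | .uv _ _ => 2 | .a _ => 2 | .s _ => 3 | .b _ => 3 | .h' => 4 | .l' => 5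

/-- distances from `l'` -/
def Fl' : Vx → ℕ
  | .l => 5 | .h => 4 | .uv _ _ => 3 | .a _ => 3 | .s _ => 2 | .b _ => 2 | .h' => 1 | .l' => 0

/-- distances from `b p` -/
def Fb (p : ℕ) : Vx → ℕ
  | .l => 3 | .h => 2 | .uv _ j => if j.testBit p then 1 else 3 | .a _ => 1 | .s _ => 2
  | .b p' => if p' = p then 0 else 2 | .h' => 1 | .l' => 2

/-- distances from `a q` -/
def Fa (q : ℕ) : Vx → ℕ
  | .l => 2 | .h => 1 | .uv _ _ => 2 | .a q' => if q' = q then 0 else 2
  | .s i => if i.testBit q then 1 else 3 | .b _ => 1 | .h' => 2 | .l' => 3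

/-- distances from `s i` -/
def Fs (c : ℕ → ℕ → Bool) (i : ℕ) : Vx → ℕ
  | .l => 3 | .h => 2 | .uv t j => if c j i = t then 1 else 2
  | .a q => if i.testBit q then 1 else 3 | .s i' => if i' = i then 0 else 2 | .b _ => 2
  | .h' => 1 | .l' => 2

theorem dist_eq {V : Type*} (G : SimpleGraph V) (w : V) (f : V → ℕ) (h0 : f w = 0)
    (hL : ∀ x y, G.Adj x y → f y ≤ f x + 1)
    (hp : ∀ x, x ≠ w → ∃ y, G.Adj x y ∧ f y + 1 = f x) :
    ∀ x, G.Reachable w x ∧ G.dist w x = f x := by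
  have h1 : ∀ n x, f x = n → ∃ q : G.Walk w x, q.length ≤ n := by
    intro n
    induction n with
    | zero =>
      intro x hx
      by_cases hxw : x = w
      · subst hxw
        exact ⟨SimpleGraph.Walk.nil, le_rfl⟩
      · obtain ⟨y, _, hy⟩ := hp x hxw
        omega
    | succ n ih =>
      intro x hx
      by_cases hxw : x = w
      · subst hxw
        omega
      · obtain ⟨y, hxy, hy⟩ := hp x hxw
        obtain ⟨q, hq⟩ := ih y (by omega)
        refine ⟨q.append (SimpleGraph.Walk.cons hxy.symm SimpleGraph.Walk.nil), ?_⟩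
        simp
        omega
  have h2 : ∀ x y (q : G.Walk x y), f y ≤ f x + q.length := by
    intro x y q
    induction q with
    | nil => simp
    | cons hxy q ih =>
      rw [SimpleGraph.Walk.length_cons]
      have := hL _ _ hxy
      omega
  intro x
  obtain ⟨q, hq⟩ := h1 (f x) x rfl
  refine ⟨⟨q⟩, le_antisymm ((SimpleGraph.dist_le q).trans hq) ?_⟩
  obtain ⟨q', hq'⟩ := SimpleGraph.Reachable.exists_walk_length_eq_dist (G := G) ⟨q⟩
  rw [← hq']
  have := h2 _ _ q'
  omega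

section

variable {V : Type*} {G : SimpleGraph V} {lab : V → Vx} {c : ℕ → ℕ → Bool} {N M A B : ℕ}

/-- `G` is the graph of the reduction -/
structure IsGad (G : SimpleGraph V) (lab : V → Vx) (c : ℕ → ℕ → Bool) (N M A B : ℕ) : Prop where
  inj : Function.Injective lab
  ok : ∀ x, Ok N M A B (lab x)
  surj : ∀ X, Ok N M A B X → ∃ x, lab x = X
  adj : ∀ x y, G.Adj x y ↔ (R c (lab x) (lab y) = true ∨ R c (lab y) (lab x) = true)
  hA : 0 < A
  hB : 0 < B
  hM : 0 < M
  hN : N ≤ 2 ^ A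
  hM2 : M ≤ 2 ^ B
  mem : ∀ j < M, ∃ i < N, c j i = true
  nmem : ∀ j < M, ∃ i < N, c j i = false

theorem IsGad.cert (hG : IsGad G lab c N M A B) (W : Vx) (F : Vx → ℕ) (h0 : F W = 0)
    (hL : ∀ X Y, R c X Y = true → F Y ≤ F X + 1 ∧ F X ≤ F Y + 1)
    (hp : ∀ X, Ok N M A B X → X ≠ W → ∃ Y, Ok N M A B Y ∧ (R c X Y = true ∨ R c Y X = true) ∧
      F Y + 1 = F X) (w : V) (hw : lab w = W) (x : V) :
    G.Reachable w x ∧ G.dist w x = F (lab x) := by
  refine dist_eq G w (fun x => F (lab x)) (by simp only [hw, h0]) ?_ ?_ x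
  · intro x y hxy
    rcases (hG.adj x y).1 hxy with h | h
    · exact (hL _ _ h).1
    · exact (hL _ _ h).2
  · intro x hx
    obtain ⟨Y, hY, hR, hF⟩ := hp (lab x) (hG.ok x) (fun h => hx (hG.inj (h.trans hw.symm)))
    obtain ⟨y, rfl⟩ := hG.surj Y hY
    exact ⟨y, (hG.adj x y).2 hR, hF⟩

theorem IsGad.dist_l (hG : IsGad G lab c N M A B) {w : V} (hw : lab w = Vx.l) (x : V) :
    G.Reachable w x ∧ G.dist w x = Fl (lab x) := by
  refine hG.cert Vx.l Fl rfl ?_ ?_ w hw x
  · rintro (_ | _ | ⟨_ | _, _⟩ | _ | _ | _ | _ | _) (_ | _ | ⟨_ | _, _⟩ | _ | _ | _ | _ | _) <;>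
      simp [R, Fl]
  · intro X hX hne
    rcases X with _ | _ | ⟨t, j⟩ | q | i | p | _ | _
    · exact absurd rfl hne
    · exact ⟨.l, trivial, by simp [R], rfl⟩
    · exact ⟨.h, trivial, by simp [R], rfl⟩
    · exact ⟨.h, trivial, by simp [R], rfl⟩
    · exact ⟨.uv (c 0 i) 0, hG.hM, by simp [R], rfl⟩
    · exact ⟨.a 0, hG.hA, by simp [R], rfl⟩
    · exact ⟨.b 0, hG.hB, by simp [R], rfl⟩
    · exact ⟨.h', trivial, by simp [R], rfl⟩

theorem IsGad.dist_l' (hG : IsGad G lab c N M A B) {w : V} (hw : lab w = Vx.l') (x : V) :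
    G.Reachable w x ∧ G.dist w x = Fl' (lab x) := by
  refine hG.cert Vx.l' Fl' rfl ?_ ?_ w hw x
  · rintro (_ | _ | ⟨_ | _, _⟩ | _ | _ | _ | _ | _) (_ | _ | ⟨_ | _, _⟩ | _ | _ | _ | _ | _) <;>
      simp [R, Fl']
  · intro X hX hne
    rcases X with _ | _ | ⟨t, j⟩ | q | i | p | _ | _
    · exact ⟨.h, trivial, by simp [R], rfl⟩
    · exact ⟨.a 0, hG.hA, by simp [R], rfl⟩
    · cases t with
      | true =>
        obtain ⟨i, hi, hc⟩ := hG.mem j hX
        exact ⟨.s i, hi, by simp [R, hc], rfl⟩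
      | false =>
        obtain ⟨i, hi, hc⟩ := hG.nmem j hX
        exact ⟨.s i, hi, by simp [R, hc], rfl⟩
    · exact ⟨.b 0, hG.hB, by simp [R], rfl⟩
    · exact ⟨.h', trivial, by simp [R], rfl⟩
    · exact ⟨.h', trivial, by simp [R], rfl⟩
    · exact ⟨.l', trivial, by simp [R], rfl⟩
    · exact absurd rfl hne

theorem IsGad.dist_b (hG : IsGad G lab c N M A B) {w : V} {p : ℕ} (hp : p < B)
    (hw : lab w = Vx.b p) (x : V) :
    G.Reachable w x ∧ G.dist w x = Fb p (lab x) := by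
  refine hG.cert (Vx.b p) (Fb p) (by simp [Fb]) ?_ ?_ w hw x
  · rintro (_ | _ | ⟨_ | _, _⟩ | _ | _ | _ | _ | _) (_ | _ | ⟨_ | _, _⟩ | _ | _ | _ | _ | _) <;>
      simp [R, Fb] <;> (try split_ifs) <;> (try omega) <;> simp_all <;> (rintro rfl; simp_all)
  · intro X hX hne
    rcases X with _ | _ | ⟨t, j⟩ | q | i | p' | _ | _
    · exact ⟨.h, trivial, by simp [R], rfl⟩
    · exact ⟨.a 0, hG.hA, by simp [R], rfl⟩
    · by_cases hb : j.testBit p
      · exact ⟨.b p, hp, by simp [R, hb], by simp [Fb, hb]⟩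
      · exact ⟨.h, trivial, by simp [R], by simp [Fb, hb]⟩
    · exact ⟨.b p, hp, by simp [R], by simp [Fb]⟩
    · exact ⟨.h', trivial, by simp [R], rfl⟩
    · have : p' ≠ p := fun h => hne (by rw [h])
      exact ⟨.h', trivial, by simp [R], by simp [Fb, this]⟩
    · exact ⟨.b p, hp, by simp [R], by simp [Fb]⟩
    · exact ⟨.h', trivial, by simp [R], rfl⟩

theorem IsGad.dist_a (hG : IsGad G lab c N M A B) {w : V} {q : ℕ} (hq : q < A)
    (hw : lab w = Vx.a q) (x : V) :
    G.Reachable w x ∧ G.dist w x = Fa q (lab x) := by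
  refine hG.cert (Vx.a q) (Fa q) (by simp [Fa]) ?_ ?_ w hw x
  · rintro (_ | _ | ⟨_ | _, _⟩ | _ | _ | _ | _ | _) (_ | _ | ⟨_ | _, _⟩ | _ | _ | _ | _ | _) <;>
      simp [R, Fa] <;> (try split_ifs) <;> (try omega) <;> simp_all
  · intro X hX hne
    rcases X with _ | _ | ⟨t, j⟩ | q' | i | p' | _ | _
    · exact ⟨.h, trivial, by simp [R], rfl⟩
    · exact ⟨.a q, hq, by simp [R], by simp [Fa]⟩
    · exact ⟨.h, trivial, by simp [R], rfl⟩
    · have : q' ≠ q := fun h => hne (by rw [h])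
      exact ⟨.h, trivial, by simp [R], by simp [Fa, this]⟩
    · by_cases hb : i.testBit q
      · exact ⟨.a q, hq, by simp [R, hb], by simp [Fa, hb]⟩
      · exact ⟨.h', trivial, by simp [R], by simp [Fa, hb]⟩
    · exact ⟨.a q, hq, by simp [R], by simp [Fa]⟩
    · exact ⟨.b 0, hG.hB, by simp [R], rfl⟩
    · exact ⟨.h', trivial, by simp [R], rfl⟩

theorem IsGad.dist_s (hG : IsGad G lab c N M A B) {w : V} {i : ℕ} (hi : i < N)
    (hw : lab w = Vx.s i) (x : V) :
    G.Reachable w x ∧ G.dist w x = Fs c i (lab x) := by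
  refine hG.cert (Vx.s i) (Fs c i) (by simp [Fs]) ?_ ?_ w hw x
  · rintro (_ | _ | ⟨_ | _, _⟩ | _ | _ | _ | _ | _) (_ | _ | ⟨_ | _, _⟩ | _ | _ | _ | _ | _) <;>
      simp [R, Fs] <;> (try split_ifs) <;> (try omega) <;> simp_all
  · intro X hX hne
    rcases X with _ | _ | ⟨t, j⟩ | q' | i' | p' | _ | _
    · exact ⟨.h, trivial, by simp [R], rfl⟩
    · exact ⟨.uv (c 0 i) 0, hG.hM, by simp [R], by simp [Fs]⟩
    · by_cases hb : c j i = t
      · exact ⟨.s i, hi, by simp [R, hb], by simp [Fs, hb]⟩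
      · refine ⟨.uv (!t) j, hX, ?_, ?_⟩
        · cases t <;> simp [R]
        · have : c j i = !t := by cases h : c j i <;> cases t <;> simp_all
          simp [Fs, this]
    · by_cases hb : i.testBit q'
      · exact ⟨.s i, hi, by simp [R, hb], by simp [Fs, hb]⟩
      · exact ⟨.b 0, hG.hB, by simp [R], by simp [Fs, hb]⟩
    · have : i' ≠ i := fun h => hne (by rw [h])
      exact ⟨.h', trivial, by simp [R], by simp [Fs, this]⟩
    · exact ⟨.h', trivial, by simp [R], rfl⟩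
    · exact ⟨.s i, hi, by simp [R], by simp [Fs]⟩
    · exact ⟨.h', trivial, by simp [R], rfl⟩

/-- an element: a vertex (given twice) or an edge, oriented -/
def El (c : ℕ → ℕ → Bool) (X Y : Vx) : Prop := X = Y ∨ R c X Y = true

theorem forms {X Y : Vx} (h : R c X Y = true) :
    (X = .l ∧ Y = .h) ∨ (∃ t j, X = .h ∧ Y = .uv t j) ∨ (∃ q, X = .h ∧ Y = .a q) ∨
    (∃ j, X = .uv true j ∧ Y = .uv false j) ∨ (∃ t j i, X = .uv t j ∧ Y = .s i ∧ c j i = t) ∨
    (∃ t j p, X = .uv t j ∧ Y = .b p ∧ j.testBit p = true) ∨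
    (∃ q i, X = .a q ∧ Y = .s i ∧ i.testBit q = true) ∨ (∃ q p, X = .a q ∧ Y = .b p) ∨
    (∃ i, X = .s i ∧ Y = .h') ∨ (∃ p, X = .b p ∧ Y = .h') ∨ (X = .h' ∧ Y = .l') := by
  rcases X with _ | _ | ⟨_ | _, j⟩ | q | i | p | _ | _ <;>
    rcases Y with _ | _ | ⟨_ | _, k⟩ | r | m | s | _ | _ <;>
    simp_all [R]

theorem bit1 {x y : Bool} (h : (if x = true then 1 else 3 : ℕ) = if y = true then 1 else 3) :
    x = y := by
  cases x <;> cases y <;> simp at h ⊢

theorem bit2 {x y : Bool} (h : min (if x = true then 1 else 3 : ℕ) 2 =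
    min (if y = true then 1 else 3) 2) : x = y := by
  cases x <;> cases y <;> simp at h ⊢

theorem bit3 {x y : Bool} (h : min 2 (if x = true then 1 else 3 : ℕ) =
    min 2 (if y = true then 1 else 3)) : x = y := by
  cases x <;> cases y <;> simp at h ⊢

theorem testBit_inj {N A : ℕ} (hA : N ≤ 2 ^ A) {i i' : ℕ} (hi : i < N) (hi' : i' < N)
    (h : ∀ q < A, i.testBit q = i'.testBit q) : i = i' := by
  refine Nat.eq_of_testBit_eq fun q => ?_
  by_cases hq : q < A
  · exact h q hq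
  · have h1 : i < 2 ^ q :=
      lt_of_lt_of_le (hi.trans_le hA) (Nat.pow_le_pow_right (by norm_num) (by omega))
    have h2 : i' < 2 ^ q :=
      lt_of_lt_of_le (hi'.trans_le hA) (Nat.pow_le_pow_right (by norm_num) (by omega))
    rw [Nat.testBit_eq_false_of_lt h1, Nat.testBit_eq_false_of_lt h2]

theorem forms1 (X : Vx) : X = .l ∨ X = .h ∨ (∃ t j, X = .uv t j) ∨ (∃ q, X = .a q) ∨
    (∃ i, X = .s i) ∨ (∃ p, X = .b p) ∨ X = .h' ∨ X = .l' := by
  cases X <;> simp

/-- two vertices -/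
theorem sepVV (hA : N ≤ 2 ^ A) (hB : M ≤ 2 ^ B) (S : Finset ℕ)
    (hS1 : ∀ j < M, ∃ i ∈ S, c j i = true)
    {X X' : Vx} (hX : Ok N M A B X) (hX' : Ok N M A B X')
    (fl : Fl X = Fl X') (fa : ∀ q < A, Fa q X = Fa q X') (fb : ∀ p < B, Fb p X = Fb p X')
    (fs : ∀ i ∈ S, Fs c i X = Fs c i X') : X = X' := by
  cases X <;> cases X' <;> first | rfl | (exfalso; revert fl; simp [Fl]; done) | skip
  · rename_i t j t' j'
    have hj : j = j' := testBit_inj hB hX hX' fun p hp => bit1 (fb p hp)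
    subst hj
    obtain ⟨i, hi, hc⟩ := hS1 j hX
    have h1 := fs i hi
    simp only [Fs, hc] at h1
    cases t <;> cases t' <;> simp at h1 ⊢
  · rename_i t j q'
    have h1 := fa q' hX'
    simp [Fa] at h1
  · rename_i q t' j'
    have h1 := fa q hX
    simp [Fa] at h1
  · rename_i q q'
    have h1 := fa q hX
    simp only [Fa, if_true] at h1
    by_cases h2 : q' = q
    · rw [h2]
    · simp [h2] at h1
  · rename_i i i'
    rw [testBit_inj hA hX hX' fun p hp => bit1 (fa p hp)]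
  · rename_i i p'
    have h1 := fb p' hX'
    simp [Fb] at h1
  · rename_i p i'
    have h1 := fb p hX
    simp [Fb] at h1
  · rename_i p p'
    have h1 := fb p hX
    simp only [Fb, if_true] at h1
    by_cases h2 : p' = p
    · rw [h2]
    · simp [h2] at h1

/-- a vertex and an edge -/
theorem sepVE (hB : M ≤ 2 ^ B) (S : Finset ℕ)
    (hS1 : ∀ j < M, ∃ i ∈ S, c j i = true) (hS2 : ∀ j < M, ∃ i ∈ S, c j i = false)
    {X X' Y' : Vx} (hE' : R c X' Y' = true)
    (hX : Ok N M A B X) (hX' : Ok N M A B X')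
    (fl : Fl X = min (Fl X') (Fl Y'))
    (fl' : Fl' X = min (Fl' X') (Fl' Y'))
    (fa : ∀ q < A, Fa q X = min (Fa q X') (Fa q Y'))
    (fb : ∀ p < B, Fb p X = min (Fb p X') (Fb p Y'))
    (fs : ∀ i ∈ S, Fs c i X = min (Fs c i X') (Fs c i Y')) : False := by
  have hl : Fl X + Fl' X = 5 := by cases X <;> rfl
  rw [fl, fl'] at hl
  rcases forms hE' with ⟨rfl, rfl⟩ | ⟨t', j', rfl, rfl⟩ | ⟨q', rfl, rfl⟩ | ⟨j', rfl, rfl⟩ |
      ⟨t', j', i', rfl, rfl, hc'⟩ | ⟨t', j', p', rfl, rfl, hc'⟩ | ⟨q', i', rfl, rfl, hc'⟩ |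
      ⟨q', p', rfl, rfl⟩ | ⟨i', rfl, rfl⟩ | ⟨p', rfl, rfl⟩ | ⟨rfl, rfl⟩ <;>
    simp [Fl, Fl'] at hl
  have h2 : Fl X = 2 := by rw [fl]; rfl
  clear fl fl'
  cases X <;> simp [Fl] at h2
  · rename_i t j
    have hj : j = j' := testBit_inj hB hX hX' fun p hp => by
      have h1 := fb p hp
      simp only [Fb, min_self] at h1
      exact bit1 h1
    subst hj
    obtain ⟨i, hi, hc⟩ := hS1 j hX
    obtain ⟨i', hi', hc'⟩ := hS2 j hX
    have h1 := fs i hi
    have h2 := fs i' hi'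
    simp only [Fs, hc] at h1
    simp only [Fs, hc'] at h2
    cases t <;> simp at h1 h2
  · rename_i q
    have h1 := fa q hX
    simp [Fa] at h1

theorem minA {q : ℕ} {X Y : Vx} (h : min (Fa q X) (Fa q Y) = 0) : X = .a q ∨ Y = .a q := by
  have key : ∀ X : Vx, Fa q X = 0 → X = .a q := by
    intro X hX
    cases X <;> simp [Fa] at hX
    · rw [hX]
    · split_ifs at hX
  rcases le_total (Fa q X) (Fa q Y) with h1 | h1
  · rw [min_eq_left h1] at h
    exact Or.inl (key _ h)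
  · rw [min_eq_right h1] at h
    exact Or.inr (key _ h)

theorem minB {p : ℕ} {X Y : Vx} (h : min (Fb p X) (Fb p Y) = 0) : X = .b p ∨ Y = .b p := by
  have key : ∀ X : Vx, Fb p X = 0 → X = .b p := by
    intro X hX
    cases X <;> simp [Fb] at hX
    · split_ifs at hX
    · rw [hX]
  rcases le_total (Fb p X) (Fb p Y) with h1 | h1
  · rw [min_eq_left h1] at h
    exact Or.inl (key _ h)
  · rw [min_eq_right h1] at h
    exact Or.inr (key _ h)

/-- two edges -/
theorem sepEE (hA : N ≤ 2 ^ A) (hB : M ≤ 2 ^ B) (S : Finset ℕ)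
    (hS1 : ∀ j < M, ∃ i ∈ S, c j i = true)
    {X Y X' Y' : Vx} (hE : R c X Y = true) (hE' : R c X' Y' = true)
    (hX : Ok N M A B X) (hY : Ok N M A B Y) (hX' : Ok N M A B X') (hY' : Ok N M A B Y')
    (fl : min (Fl X) (Fl Y) = min (Fl X') (Fl Y'))
    (fl' : min (Fl' X) (Fl' Y) = min (Fl' X') (Fl' Y'))
    (fa : ∀ q < A, min (Fa q X) (Fa q Y) = min (Fa q X') (Fa q Y'))
    (fb : ∀ p < B, min (Fb p X) (Fb p Y) = min (Fb p X') (Fb p Y'))
    (fs : ∀ i ∈ S, min (Fs c i X) (Fs c i Y) = min (Fs c i X') (Fs c i Y')) :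
    X = X' ∧ Y = Y' := by
  rcases forms hE with ⟨rfl, rfl⟩ | ⟨t, j, rfl, rfl⟩ | ⟨q, rfl, rfl⟩ | ⟨j, rfl, rfl⟩ |
      ⟨t, j, i, rfl, rfl, hc⟩ | ⟨t, j, p, rfl, rfl, hc⟩ | ⟨q, i, rfl, rfl, hc⟩ |
      ⟨q, p, rfl, rfl⟩ | ⟨i, rfl, rfl⟩ | ⟨p, rfl, rfl⟩ | ⟨rfl, rfl⟩ <;>
    rcases forms hE' with ⟨rfl, rfl⟩ | ⟨t', j', rfl, rfl⟩ | ⟨q', rfl, rfl⟩ | ⟨j', rfl, rfl⟩ |
      ⟨t', j', i', rfl, rfl, hc'⟩ | ⟨t', j', p', rfl, rfl, hc'⟩ | ⟨q', i', rfl, rfl, hc'⟩ |
      ⟨q', p', rfl, rfl⟩ | ⟨i', rfl, rfl⟩ | ⟨p', rfl, rfl⟩ | ⟨rfl, rfl⟩ <;>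
    first | exact ⟨rfl, rfl⟩ | (exfalso; revert fl fl'; simp [Fl, Fl']; done) | skip
  -- h uv, h uv
  · have hj : j = j' := testBit_inj hB hY hY' fun p hp => bit3 (fb p hp)
    subst hj
    obtain ⟨i, hi, hc⟩ := hS1 j hY
    have h1 := fs i hi
    simp only [Fs, hc] at h1
    cases t <;> cases t' <;> simp at h1 ⊢
  -- h uv, h a
  · rcases minA ((fa q' hY').trans (by simp [Fa])) with h | h <;> simp at h
  · rcases minA ((fa q hY).symm.trans (by simp [Fa])) with h | h <;> simp at h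
  -- h a, h a
  · rcases minA ((fa q hY).symm.trans (by simp [Fa])) with h | h
    · simp at h
    · exact ⟨rfl, h.symm⟩
  -- uv uv, uv uv
  · have hj : j = j' := testBit_inj hB hX hX' fun p hp => by
      have h1 := fb p hp
      simp only [Fb, min_self] at h1
      exact bit1 h1
    subst hj
    exact ⟨rfl, rfl⟩
  -- uv s, uv s
  · have hj : j = j' := testBit_inj hB hX hX' fun p hp => bit2 (fb p hp)
    have hi : i = i' := testBit_inj hA hY hY' fun p hp => bit3 (fa p hp)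
    subst hj
    subst hi
    rw [← hc, ← hc']
    exact ⟨rfl, rfl⟩
  -- uv s, uv b
  · rcases minB ((fb p' hY').trans (by simp [Fb])) with h | h <;> simp at h
  -- uv s, a s
  · rcases minA ((fa q' hX').trans (by simp [Fa])) with h | h <;> simp at h
  -- uv s, a b
  · rcases minA ((fa q' hX').trans (by simp [Fa])) with h | h <;> simp at h
  -- uv b, uv s
  · rcases minB ((fb p hY).symm.trans (by simp [Fb])) with h | h <;> simp at h
  -- uv b, uv b
  · have hp : p = p' := by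
      rcases minB ((fb p hY).symm.trans (by simp [Fb])) with h | h
      · simp at h
      · simpa using h.symm
    subst hp
    have hj : j = j' := testBit_inj hB hX hX' fun r hr => by
      by_cases hrp : p = r
      · subst hrp
        rw [hc, hc']
      · have h1 := fb r hr
        simp only [Fb, if_neg hrp] at h1
        exact bit2 h1
    subst hj
    obtain ⟨i, hi, hci⟩ := hS1 j hX
    have h1 := fs i hi
    simp only [Fs, hci] at h1
    cases t <;> cases t' <;> simp at h1 ⊢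
  -- uv b, a s
  · rcases minA ((fa q' hX').trans (by simp [Fa])) with h | h <;> simp at h
  -- uv b, a b
  · rcases minA ((fa q' hX').trans (by simp [Fa])) with h | h <;> simp at h
  -- a s, uv s
  · rcases minA ((fa q hX).symm.trans (by simp [Fa])) with h | h <;> simp at h
  -- a s, uv b
  · rcases minA ((fa q hX).symm.trans (by simp [Fa])) with h | h <;> simp at h
  -- a s, a s
  · have hq : q = q' := by
      rcases minA ((fa q hX).symm.trans (by simp [Fa])) with h | h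
      · simpa using h.symm
      · simp at h
    subst hq
    have hi : i = i' := testBit_inj hA hY hY' fun r hr => by
      by_cases hrp : q = r
      · subst hrp
        rw [hc, hc']
      · have h1 := fa r hr
        simp only [Fa, if_neg hrp] at h1
        exact bit3 h1
    subst hi
    exact ⟨rfl, rfl⟩
  -- a s, a b
  · rcases minB ((fb p' hY').trans (by simp [Fb])) with h | h <;> simp at h
  -- a b, uv s
  · rcases minA ((fa q hX).symm.trans (by simp [Fa])) with h | h <;> simp at h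
  -- a b, uv b
  · rcases minA ((fa q hX).symm.trans (by simp [Fa])) with h | h <;> simp at h
  -- a b, a s
  · rcases minB ((fb p hY).symm.trans (by simp [Fb])) with h | h <;> simp at h
  -- a b, a b
  · have hq : q = q' := by
      rcases minA ((fa q hX).symm.trans (by simp [Fa])) with h | h
      · simpa using h.symm
      · simp at h
    have hp : p = p' := by
      rcases minB ((fb p hY).symm.trans (by simp [Fb])) with h | h
      · simp at h
      · simpa using h.symm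
    rw [hq, hp]
    exact ⟨rfl, rfl⟩
  -- s h', s h'
  · have hi : i = i' := testBit_inj hA hX hX' fun p hp => bit2 (fa p hp)
    rw [hi]
    exact ⟨rfl, rfl⟩
  · rcases minB ((fb p' hX').trans (by simp [Fb])) with h | h <;> simp at h
  · rcases minB ((fb p hX).symm.trans (by simp [Fb])) with h | h <;> simp at h
  · rcases minB ((fb p hX).symm.trans (by simp [Fb])) with h | h
    · exact ⟨h.symm, rfl⟩
    · simp at h

end

end Pool.Agent.R550.MD
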