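import Pool.Agent.R550.MD.Code

set_option autoImplicit false

/-!
# Hardness of approximation of the mixed metric dimension
-/

namespace Pool.Agent.R550.MD

open Pool.Agent.NPC Pool.Agent.R550.HS

theorem hits_iff {H : List (List ℕ)} {X : Finset ℕ} :
    (∀ j < H.length, ∃ i, cH H j i = true ∧ i ∈ X) ↔ Hits X H := by
  constructor
  · intro h C hC
    obtain ⟨j, hj, rfl⟩ := List.getElem_of_mem hC
    obtain ⟨i, h1, h2⟩ := h j hj
    refine ⟨i, ?_, h2⟩
    simpa [cH, List.getD_eq_getElem?_getD, List.getElem?_eq_getElem hj] using h1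
  · intro h j hj
    obtain ⟨i, h1, h2⟩ := h _ (List.getElem_mem hj)
    exact ⟨i, by simpa [cH, List.getD_eq_getElem?_getD, List.getElem?_eq_getElem hj] using h1, h2⟩

theorem three_le (m : ℕ) : 3 * m ≤ 2 ^ (2 * m) := by
  induction m with
  | zero => simp
  | succ m ih =>
    have h3 : 2 ^ (2 * (m + 1)) = 4 * 2 ^ (2 * m) := by
      rw [Nat.mul_add, pow_add]
      ring
    have : 1 ≤ 2 ^ (2 * m) := Nat.one_le_two_pow
    omega

/-- all the facts about the graph of the reduction -/
theorem facts {m t : ℕ} (hm : 0 < m) (ht : 0 < t) {H : List (List ℕ)} (hH0 : 0 < H.length)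
    (hw : ∀ C ∈ H, C.length = 2 ^ t) (hlt : ∀ C ∈ H, ∀ a ∈ C, a < (3 * m) ^ t)
    (hl : H.length ≤ 2 ^ (4 * m * (2 ^ t - 1))) :
    (graph (GA ((3 * m) ^ t) (2 * m * t) (4 * m * 2 ^ t) H)).Connected ∧
    (∀ X : Finset ℕ, Hits X H → X.card ≤ (2 * m) ^ t →
      mdim (graph (GA ((3 * m) ^ t) (2 * m * t) (4 * m * 2 ^ t) H)) ≤ 11 * (2 * m) ^ t) ∧
    (∀ k : ℕ, (∀ X : Finset ℕ, Hits X H → k < X.card) →
      k < mdim (graph (GA ((3 * m) ^ t) (2 * m * t) (4 * m * 2 ^ t) H))) := by
  classical
  have h2t : 2 ^ t < (3 * m) ^ t := Nat.pow_lt_pow_left (by omega) (by omega)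
  obtain ⟨lab, hG⟩ := isGad ((3 * m) ^ t) (2 * m * t) (4 * m * 2 ^ t) H (by positivity)
    (by positivity) hH0 (by
      calc (3 * m) ^ t ≤ (2 ^ (2 * m)) ^ t := Nat.pow_le_pow_left (three_le m) t
        _ = 2 ^ (2 * m * t) := by rw [← pow_mul])
    (hl.trans (Nat.pow_le_pow_right (by norm_num) (Nat.mul_le_mul_left _ (Nat.sub_le _ _))))
    hlt (by
      intro C hC h
      have := hw C hC
      rw [h] at this
      have h1 : 0 < 2 ^ t := by positivity
      simp at this
      omega)
    (by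
      intro C hC
      rw [hw C hC]
      exact h2t)
  -- an index outside of every set
  have hout : ∀ j < H.length, ∃ i ∈ Finset.range (2 ^ t + 1), cH H j i = false := by
    intro j hj
    by_contra hcon
    push Not at hcon
    have hmem : H.getD j [] ∈ H := by
      rw [List.getD_eq_getElem?_getD, List.getElem?_eq_getElem hj]
      exact List.getElem_mem hj
    have h1 : Finset.range (2 ^ t + 1) ⊆ (H.getD j []).toFinset := by
      intro i hi
      rw [List.mem_toFinset]
      have := hcon i hi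
      by_contra hni
      exact this (by simpa [cH] using hni)
    have h2 := (Finset.card_le_card h1).trans (List.toFinset_card_le _)
    rw [Finset.card_range, hw _ hmem] at h2
    omega
  have hin : ∀ X : Finset ℕ, Hits X H → ∀ j < H.length,
      ∃ i ∈ X.filter (fun i => i < (3 * m) ^ t), cH H j i = true := by
    intro X hX j hj
    have hmem : H.getD j [] ∈ H := by
      rw [List.getD_eq_getElem?_getD, List.getElem?_eq_getElem hj]
      exact List.getElem_mem hj
    obtain ⟨a, h1, h2⟩ := hX _ hmem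
    exact ⟨a, Finset.mem_filter.2 ⟨h2, hlt _ hmem a h1⟩, by simpa [cH] using h1⟩
  refine ⟨?_, ?_, ?_⟩
  · obtain ⟨v, hv⟩ := hG.surj .l trivial
    haveI : Nonempty (Fin (GA ((3 * m) ^ t) (2 * m * t) (4 * m * 2 ^ t) H).length) := ⟨v⟩
    exact ⟨fun x y => (hG.dist_l hv x).1.symm.trans (hG.dist_l hv y).1⟩
  · intro X hX hXc
    have h1 := hG.mdim_le (X.filter (fun i => i < (3 * m) ^ t) ∪ Finset.range (2 ^ t + 1)) (by
        intro i hi
        rcases Finset.mem_union.1 hi with hi | hi
        · exact (Finset.mem_filter.1 hi).2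
        · rw [Finset.mem_range] at hi
          omega)
      (by
        intro j hj
        obtain ⟨i, h1, h2⟩ := hin X hX j hj
        exact ⟨i, Finset.mem_union_left _ h1, h2⟩)
      (by
        intro j hj
        obtain ⟨i, h1, h2⟩ := hout j hj
        exact ⟨i, Finset.mem_union_right _ h1, h2⟩)
    refine h1.trans ?_
    have h2 : (X.filter (fun i => i < (3 * m) ^ t) ∪ Finset.range (2 ^ t + 1)).card ≤
        (2 * m) ^ t + (2 ^ t + 1) := by
      refine (Finset.card_union_le _ _).trans (Nat.add_le_add ?_ (Finset.card_range _).le)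
      exact (Finset.card_filter_le _ _).trans hXc
    have h3 : 2 ^ t * m ≤ (2 * m) ^ t := by
      rw [mul_pow]
      exact Nat.mul_le_mul_left _ (Nat.le_self_pow (by omega) m)
    have h4 : t ≤ 2 ^ t := Nat.lt_two_pow_self.le
    have h5 : 2 * m * t ≤ 2 * (2 * m) ^ t := by
      calc 2 * m * t ≤ 2 * m * 2 ^ t := Nat.mul_le_mul_left _ h4
        _ = 2 * (2 ^ t * m) := by ring
        _ ≤ 2 * (2 * m) ^ t := Nat.mul_le_mul_left _ h3
    have h6 : 4 * m * 2 ^ t ≤ 4 * (2 * m) ^ t := by
      calc 4 * m * 2 ^ t = 4 * (2 ^ t * m) := by ring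
        _ ≤ 4 * (2 * m) ^ t := Nat.mul_le_mul_left _ h3
    have h7 : 2 ^ t ≤ (2 * m) ^ t := Nat.pow_le_pow_left (by omega) t
    have h8 : 1 ≤ (2 * m) ^ t := Nat.one_le_pow _ _ (by omega)
    omega
  · intro k hk
    have hex : ∃ S : Finset _, MixedResolving
        (graph (GA ((3 * m) ^ t) (2 * m * t) (4 * m * 2 ^ t) H)) S := by
      refine ⟨Finset.univ, hG.resolving (Finset.range ((3 * m) ^ t)) (fun i hi => by
        rwa [Finset.mem_range] at hi) ?_ ?_ _ (fun v _ => Finset.mem_univ v)⟩
      · intro j hj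
        obtain ⟨i, h1, h2⟩ := hG.mem j hj
        exact ⟨i, Finset.mem_range.2 h1, h2⟩
      · intro j hj
        obtain ⟨i, h1, h2⟩ := hG.nmem j hj
        exact ⟨i, Finset.mem_range.2 h1, h2⟩
    exact hG.le_mdim hex (k := k + 1) fun X hX => hk X (hits_iff.1 hX)

/-- the gap problem for the mixed metric dimension is `NP`-hard -/
theorem gapMD (c : ℝ) {L : Set (List Bool)} (hL : InNP L) :
    ∃ (f : List Bool → List (List ℕ)) (k : List Bool → ℕ),
      NPC.Poly (fun x => (f x, k x)) ∧ ∀ x, (graph (f x)).Connected ∧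
        (x ∈ L → mdim (graph (f x)) ≤ k x) ∧
        (x ∉ L → ⌈c⌉₊ * k x < mdim (graph (f x))) := by
  obtain ⟨t, ht, h⟩ := gap (⌈c⌉₊ * 11)
  obtain ⟨m, H, hm, hH, hx⟩ := h hL
  refine ⟨fun x => GA ((3 * m x) ^ t) (2 * m x * t) (4 * m x * 2 ^ t) (H x),
    fun x => 11 * (2 * m x) ^ t, ?_, fun x => ?_⟩
  · have h1 := poly_GA (uPoly_powc (UPoly.mul (UPoly.const 3) hm) t)
      (UPoly.mul (UPoly.mul (UPoly.const 2) hm) (UPoly.const t))
      (UPoly.mul (UPoly.mul (UPoly.const 4) hm) (UPoly.const (2 ^ t))) hH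
    have h2 : NPC.Poly (fun x => 11 * (2 * m x) ^ t) :=
      Poly.mul (NPC.Poly.const 11) (poly_powc (Poly.mul (NPC.Poly.const 2) hm.toPoly) t)
    exact Poly.pair h1 h2
  · obtain ⟨h1, h2, h3, h4, h5, h6, h7⟩ := hx x
    obtain ⟨f1, f2, f3⟩ := facts h1 ht h4 h2 h3 h5
    refine ⟨f1, fun hxL => ?_, fun hxL => ?_⟩
    · obtain ⟨X, hX, hXc⟩ := h6 hxL
      exact f2 X hX hXc
    · have := f3 _ (h7 hxL)
      rwa [mul_assoc] at this

theorem mdim_le_card {V : Type} {G : SimpleGraph V} {S : Finset V} (hS : MixedResolving G S) :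
    mdim G ≤ S.card := Nat.sInf_le ⟨S, hS, rfl⟩

/-- approximation within a constant factor implies `P = NP` -/
theorem collapse {c : ℝ} (h : Approx c) {L : Set (List Bool)} (hL : InNP L) : InP L := by
  obtain ⟨F, hF, hFs⟩ := h
  obtain ⟨f, k, hfk, hx⟩ := gapMD c hL
  have hf : NPC.Poly f := Poly.fst hfk
  have hk : NPC.Poly k := Poly.snd hfk
  let card : List (List ℕ) → List ℕ → ℕ := fun A S =>
    ((List.range A.length).filter fun v => decide (v ∈ S)).length
  let d : List Bool → Bool := fun x => (unbits (List ℕ) (F (bits (f x)))).any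
    fun S => decide (card (f x) S ≤ ⌈c⌉₊ * k x)
  have hd : NPC.Poly d := by
    refine Poly.optAny_fp (o := fun x => unbits (List ℕ) (F (bits (f x))))
      (h := fun x S => decide (card (f x) S ≤ ⌈c⌉₊ * k x)) ?_ ?_
    · exact poly_unbits.comp ((Pool.Agent.H622R2.poly_of_polyTime hF).comp
        (R671.poly_bits.comp hf))
    · have hk' : NPC.Poly (fun p : List Bool × List ℕ => k p.1) := hk.comp (Poly.fst Poly.id)
      have hf' : NPC.Poly (fun p : List Bool × List ℕ => List.range (f p.1).length) :=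
        (UPoly.length (hf.comp (Poly.fst Poly.id))).range
      have hcard : NPC.Poly (fun p : List Bool × List ℕ => card (f p.1) p.2) := by
        refine Poly.length (Poly.filter (p := fun (p : List Bool × List ℕ) v =>
          decide (v ∈ p.2)) hf' ?_)
        fun_prop
      exact Poly.decide_le hcard (by fun_prop)
  refine ⟨fun x => [d x], polyTime_of_poly hd, fun x => ?_⟩
  have hdx : [d x] = [true] ↔ d x = true := by simp
  rw [hdx]
  obtain ⟨h1, h2, h3⟩ := hx x
  obtain ⟨S, hS1, hS2, hS3⟩ := hFs (f x) h1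
  have hcard : card (f x) S = (vset (f x) S).card := by
    have e1 : (vset (f x) S).card = ((Finset.range (f x).length).filter fun v => v ∈ S).card := by
      unfold vset
      rw [← Finset.card_image_of_injective _ (Fin.val_injective (n := (f x).length))]
      congr 1
      ext v
      simp only [Finset.mem_image, Finset.mem_filter, Finset.mem_univ, true_and, Finset.mem_range]
      constructor
      · rintro ⟨u, hu, rfl⟩
        exact ⟨u.2, hu⟩
      · rintro ⟨hv, hvS⟩
        exact ⟨⟨v, hv⟩, hvS, rfl⟩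
    rw [e1]
    change ((List.range (f x).length).filter fun v => decide (v ∈ S)).length = _
    rw [← List.toFinset_card_of_nodup (List.nodup_range.filter _)]
    congr 1
    ext v
    simp
  have hdS : d x = true ↔ (vset (f x) S).card ≤ ⌈c⌉₊ * k x := by
    simp only [d]
    rw [hS1, unbits_bits, ← hcard]
    simp
  rw [hdS]
  constructor
  · intro hxL
    have e1 := h2 hxL
    have e2 : ((vset (f x) S).card : ℝ) ≤ ⌈c⌉₊ * k x := by
      calc ((vset (f x) S).card : ℝ) ≤ c * mdim (graph (f x)) := hS3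
        _ ≤ ⌈c⌉₊ * mdim (graph (f x)) := mul_le_mul_of_nonneg_right (Nat.le_ceil c) (by positivity)
        _ ≤ ⌈c⌉₊ * k x := mul_le_mul_of_nonneg_left (by exact_mod_cast e1) (by positivity)
    exact_mod_cast e2
  · intro hle
    by_contra hxL
    have e1 := h3 hxL
    have e2 := mdim_le_card hS2
    omega

end Pool.Agent.R550.MD
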